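import Pool.Agent.H36.RP.Targets

/-!
# The remote past is generated by the biases (MP_c59857_nt, board rp)

`bias κ q` is the sigma algebra generated by the conditional means of the `x k` and `(x k) ^ 2`,
`k ≤ q`, given the remote past. If the coordinates have their values in `{-1, 0, 1}` and are
independent given the remote past, then every set in the remote past is in `bias κ q`, up to null
sets, for every `q`.
-/

set_option autoImplicit false

open MeasureTheory ProbabilityTheory Filter Topology Finset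

namespace Pool.Agent.H95.RP

open Pool.Agent.H89.MT (I1 X pt z1 IsMult)
open Pool.Agent.H36.RP

/-- The sigma algebra of the biases up to the time `q`: it is generated by the conditional means
of `x k` and `(x k) ^ 2`, `k ≤ q`, given the remote past. -/
noncomputable def bias (κ : Measure X) (q : ℤ) : MeasurableSpace X :=
  ⨆ k : ℤ, ⨆ _ : k ≤ q,
    (MeasurableSpace.comap (κ[fun x : X => (x k : ℝ) | remote]) inferInstance ⊔
      MeasurableSpace.comap (κ[fun x : X => (x k : ℝ) ^ 2 | remote]) inferInstance)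

/-- [GEN] The remote past is generated by the biases up to any time. -/
def T_GEN : Prop := ∀ (κ : Measure X) [IsProbabilityMeasure κ], Trit κ →
  iCondIndepFun remote remote_le (fun (n : ℤ) (x : X) => x n) κ →
  ∀ (g : X → ℝ) (C : ℝ), Measurable[remote] g → (∀ x, |g x| ≤ C) → ∀ q : ℤ,
    ∃ h : X → ℝ, Measurable[bias κ q] h ∧ g =ᵐ[κ] h

theorem bias_le_remote (κ : Measure X) (q : ℤ) : bias κ q ≤ remote := by
  refine iSup_le fun k => iSup_le fun _ => sup_le ?_ ?_
  · exact (stronglyMeasurable_condExp.measurable).comap_le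
  · exact (stronglyMeasurable_condExp.measurable).comap_le

theorem meas_one (κ : Measure X) {q k : ℤ} (h : k ≤ q) :
    Measurable[bias κ q] (κ[fun x : X => (x k : ℝ) | remote]) := by
  rw [measurable_iff_comap_le]
  exact le_sup_left.trans (le_iSup_of_le k (le_iSup_of_le h le_rfl))

theorem meas_two (κ : Measure X) {q k : ℤ} (h : k ≤ q) :
    Measurable[bias κ q] (κ[fun x : X => (x k : ℝ) ^ 2 | remote]) := by
  rw [measurable_iff_comap_le]
  exact le_sup_right.trans (le_iSup_of_le k (le_iSup_of_le h le_rfl))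

theorem meas_coord (k : ℤ) : Measurable (fun x : X => (x k : ℝ)) :=
  measurable_subtype_coe.comp (measurable_pi_apply k)

theorem int_coord (κ : Measure X) [IsProbabilityMeasure κ] (k : ℤ) :
    Integrable (fun x : X => (x k : ℝ)) κ := by
  refine Integrable.of_bound (meas_coord k).aestronglyMeasurable 1 (ae_of_all _ fun x => ?_)
  rw [Real.norm_eq_abs]
  exact abs_le.2 (x k).2

theorem int_coord2 (κ : Measure X) [IsProbabilityMeasure κ] (k : ℤ) :
    Integrable (fun x : X => (x k : ℝ) ^ 2) κ := by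
  refine Integrable.of_bound ((meas_coord k).pow_const 2).aestronglyMeasurable 1
    (ae_of_all _ fun x => ?_)
  have h := abs_le.2 (x k).2
  rw [Real.norm_eq_abs, abs_pow]
  exact pow_le_one₀ (abs_nonneg _) h

open Classical in
/-- The conditional probability of a condition on one coordinate. -/
theorem one_set (κ : Measure X) [IsProbabilityMeasure κ] (hT : Trit κ) (s : Set I1)
    {q k : ℤ} (hk : k ≤ q) :
    ∃ h : X → ℝ, Measurable[bias κ q] h ∧ κ⟦(fun x : X => x k) ⁻¹' s | remote⟧ =ᵐ[κ] h := by
  obtain ⟨v, hv⟩ : ∃ v : ℝ → ℝ, ∀ a : I1, s.indicator (fun _ => (1 : ℝ)) a = v a := by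
    refine ⟨fun t => if h : t ∈ Set.Icc (-1 : ℝ) 1 then
      s.indicator (fun _ => (1 : ℝ)) ⟨t, h⟩ else 0, fun a => ?_⟩
    have h : (a : ℝ) ∈ Set.Icc (-1 : ℝ) 1 := a.2
    simp only [h, dif_pos]
  set P := κ[fun x : X => (x k : ℝ) | remote] with hP
  set Q := κ[fun x : X => (x k : ℝ) ^ 2 | remote] with hQ
  refine ⟨fun x => v 0 + (v 1 - v (-1)) / 2 * P x + ((v 1 + v (-1)) / 2 - v 0) * Q x, ?_, ?_⟩
  · have h1 : Measurable[bias κ q] P := meas_one κ hk
    have h2 : Measurable[bias κ q] Q := meas_two κ hk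
    exact ((h1.const_mul _).const_add _).add (h2.const_mul _)
  · have h1 : ((fun x : X => x k) ⁻¹' s).indicator (fun _ => (1 : ℝ)) =ᵐ[κ]
        (fun _ => v 0) + (((v 1 - v (-1)) / 2) • (fun x : X => (x k : ℝ)) +
          ((v 1 + v (-1)) / 2 - v 0) • (fun x : X => (x k : ℝ) ^ 2)) := by
      filter_upwards [hT] with x hx
      have h2 : ((fun x : X => x k) ⁻¹' s).indicator (fun _ => (1 : ℝ)) x = v (x k) := by
        rw [← hv (x k)]
        rfl
      rw [h2]
      simp only [Pi.add_apply, Pi.smul_apply, smul_eq_mul]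
      rcases hx k with h | h | h <;> rw [h] <;> ring
    refine (condExp_congr_ae h1).trans ?_
    refine (condExp_add (integrable_const _) (((int_coord κ k).smul _).add
      ((int_coord2 κ k).smul _)) _).trans ?_
    have h3 := condExp_add (((int_coord κ k).smul ((v 1 - v (-1)) / 2)))
      (((int_coord2 κ k).smul ((v 1 + v (-1)) / 2 - v 0))) (remote) (μ := κ)
    have h4 := condExp_smul ((v 1 - v (-1)) / 2) (fun x : X => (x k : ℝ)) (remote) (μ := κ)
    have h5 := condExp_smul ((v 1 + v (-1)) / 2 - v 0) (fun x : X => (x k : ℝ) ^ 2)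
      (remote) (μ := κ)
    filter_upwards [h3, h4, h5] with x h3 h4 h5
    rw [Pi.add_apply, h3, Pi.add_apply, h4, h5, condExp_const remote_le]
    simp only [Pi.smul_apply, smul_eq_mul]
    rw [← hP, ← hQ]
    ring

/-- The conditional probability of a condition on finitely many coordinates. -/
theorem many_sets (κ : Measure X) [IsProbabilityMeasure κ] (hT : Trit κ)
    (hI : iCondIndepFun remote remote_le (fun (n : ℤ) (x : X) => x n) κ) (q : ℤ)
    (I : Finset ℤ) (hq : ∀ k ∈ I, k ≤ q) (s : ℤ → Set I1) (hs : ∀ k, MeasurableSet (s k)) :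
    ∃ h : X → ℝ, Measurable[bias κ q] h ∧
      κ⟦⋂ k ∈ I, (fun x : X => x k) ⁻¹' s k | remote⟧ =ᵐ[κ] h := by
  have h1 : ∀ k : ℤ, ∃ h : X → ℝ, k ∈ I → (Measurable[bias κ q] h ∧
      κ⟦(fun x : X => x k) ⁻¹' s k | remote⟧ =ᵐ[κ] h) := by
    intro k
    by_cases hk : k ∈ I
    · obtain ⟨h, h2, h3⟩ := one_set κ hT (s k) (hq k hk)
      exact ⟨h, fun _ => ⟨h2, h3⟩⟩
    · exact ⟨fun _ => 0, fun h => absurd h hk⟩
  choose h h2 using h1
  refine ⟨fun x => ∏ k ∈ I, h k x, ?_, ?_⟩
  · exact Finset.measurable_fun_prod I fun k hk => (h2 k hk).1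
  · have h3 := (iCondIndepFun_iff_condExp_inter_preimage_eq_mul (fun _ => inferInstance)
      (fun (n : ℤ) (x : X) => x n) (fun n => measurable_pi_apply n)).1 hI I (sets := s)
      (fun k _ => hs k)
    refine h3.trans ?_
    have h4 : ∀ᵐ x ∂κ, ∀ k ∈ I, (κ⟦(fun x : X => x k) ⁻¹' s k | remote⟧) x = h k x :=
      (Filter.eventually_all_finset I).2 fun k hk => (h2 k hk).2
    filter_upwards [h4] with x h4
    rw [Finset.prod_apply]
    exact Finset.prod_congr rfl h4

/-- A function which is measurable for the past depends on the past only. -/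
theorem past_dep (q : ℤ) (φ : X → ℝ) (hφ : Measurable[past q] φ) (x x' : X)
    (h : ∀ k : ℤ, k ≤ q → x k = x' k) : φ x = φ x' := by
  let m : MeasurableSpace X :=
    { MeasurableSet' := fun A => x ∈ A ↔ x' ∈ A
      measurableSet_empty := Iff.rfl
      measurableSet_compl := fun A hA => not_congr hA
      measurableSet_iUnion := fun f hf => by
        simp only [Set.mem_iUnion]
        exact exists_congr hf }
  have h1 : past q ≤ m := by
    refine iSup_le fun k => iSup_le fun hk => ?_
    rintro A ⟨B, -, rfl⟩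
    change x ∈ _ ↔ x' ∈ _
    rw [Set.mem_preimage, Set.mem_preimage, h k hk]
  have h2 : MeasurableSet[m] (φ ⁻¹' {φ x}) := h1 _ (hφ (measurableSet_singleton _))
  have h3 : x ∈ φ ⁻¹' {φ x} ↔ x' ∈ φ ⁻¹' {φ x} := h2
  exact (h3.1 rfl).symm

/-- The three values. -/
def tri : Fin 3 → I1 := ![⟨-1, by norm_num, by norm_num⟩, z1, ⟨1, by norm_num, by norm_num⟩]

theorem tri_inj : Function.Injective tri := by
  intro a b h
  have h1 : ((tri a : I1) : ℝ) = tri b := by rw [h]
  fin_cases a <;> fin_cases b <;> simp [tri, z1] at h1 ⊢ <;> norm_num at h1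

theorem tri_surj (a : I1) (h : (a : ℝ) = -1 ∨ (a : ℝ) = 0 ∨ (a : ℝ) = 1) : ∃ i, tri i = a := by
  rcases h with h | h | h
  · exact ⟨0, Subtype.ext h.symm⟩
  · exact ⟨1, Subtype.ext h.symm⟩
  · exact ⟨2, Subtype.ext h.symm⟩

open Classical in
/-- The conditional mean of a local function of the past. -/
theorem local_fun (κ : Measure X) [IsProbabilityMeasure κ] (hT : Trit κ)
    (hI : iCondIndepFun remote remote_le (fun (n : ℤ) (x : X) => x n) κ) (q : ℤ)
    (φ : X → ℝ) (H : ℕ) (hm : Measurable[past q] φ) (hL : Local H φ) :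
    ∃ h : X → ℝ, Measurable[bias κ q] h ∧ κ[φ | remote] =ᵐ[κ] h := by
  set I : Finset ℤ := (Finset.Icc (-(H : ℤ)) H).filter (· ≤ q) with hIdef
  have hmem : ∀ k : ℤ, k ∈ I ↔ (|k| ≤ H ∧ k ≤ q) := by
    intro k
    rw [hIdef, Finset.mem_filter, Finset.mem_Icc, abs_le]
  have dep : ∀ x x' : X, (∀ k ∈ I, x k = x' k) → φ x = φ x' := by
    intro x x' h
    set x'' : X := fun k => if |k| ≤ H then x k else x' k with hx''
    have h1 : φ x = φ x'' := by
      refine hL _ _ fun k hk => ?_
      rw [hx'']
      simp only [hk, if_true]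
    have h2 : φ x'' = φ x' := by
      refine past_dep q φ hm _ _ fun k hk => ?_
      rw [hx'']
      by_cases h3 : |k| ≤ (H : ℤ)
      · simp only [h3, if_true]
        exact h k ((hmem k).2 ⟨h3, hk⟩)
      · simp only [h3, if_false]
    exact h1.trans h2
  -- patterns
  set pat : (I → Fin 3) → X := fun a k => if h : k ∈ I then tri (a ⟨k, h⟩) else z1 with hpat
  set E : (I → Fin 3) → Set X := fun a => ⋂ k ∈ I, (fun x : X => x k) ⁻¹' {pat a k} with hE
  have hEm : ∀ a, MeasurableSet (E a) := by
    intro a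
    exact Finset.measurableSet_biInter I fun k _ =>
      measurable_pi_apply k (measurableSet_singleton _)
  have hsum : φ =ᵐ[κ] ∑ a : I → Fin 3, φ (pat a) • (E a).indicator (fun _ => (1 : ℝ)) := by
    filter_upwards [hT] with x hx
    choose i hi using fun k : I => tri_surj (x k) (hx k)
    have hx1 : ∀ k ∈ I, x k = pat i k := by
      intro k hk
      simp only [hpat, hk, dif_pos]
      exact (hi ⟨k, hk⟩).symm
    rw [Finset.sum_apply, Finset.sum_eq_single i]
    · have h1 : x ∈ E i := by
        simp only [hE, Set.mem_iInter, Set.mem_preimage, Set.mem_singleton_iff]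
        exact hx1
      rw [Pi.smul_apply, Set.indicator_of_mem h1, smul_eq_mul, mul_one]
      exact dep _ _ hx1
    · intro a _ hai
      have h1 : x ∉ E a := by
        intro h2
        apply hai
        simp only [hE, Set.mem_iInter, Set.mem_preimage, Set.mem_singleton_iff] at h2
        funext k
        apply tri_inj
        have h3 := h2 k k.2
        rw [hx1 k k.2] at h3
        simp only [hpat, Finset.coe_mem, dif_pos] at h3
        exact h3.symm
      rw [Pi.smul_apply, Set.indicator_of_notMem h1, smul_zero]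
    · intro h1
      exact absurd (Finset.mem_univ _) h1
  have h1 : ∀ a : I → Fin 3, ∃ h : X → ℝ, Measurable[bias κ q] h ∧
      κ⟦E a | remote⟧ =ᵐ[κ] h := fun a =>
    many_sets κ hT hI q I (fun k hk => ((hmem k).1 hk).2) (fun k => {pat a k})
      (fun k => measurableSet_singleton _)
  choose h h2 h3 using h1
  refine ⟨fun x => ∑ a : I → Fin 3, φ (pat a) * h a x, ?_, ?_⟩
  · exact Finset.measurable_fun_sum _ fun a _ => (h2 a).const_mul _
  · refine (condExp_congr_ae hsum).trans ?_
    have hint : ∀ a : I → Fin 3, Integrable ((E a).indicator (fun _ => (1 : ℝ))) κ := fun a =>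
      (integrable_const _).indicator (hEm a)
    refine (condExp_finsetSum (fun a _ => (hint a).smul _) _).trans ?_
    have h4 : ∀ᵐ x ∂κ, ∀ a : I → Fin 3,
        (κ[φ (pat a) • (E a).indicator (fun _ => (1 : ℝ)) | remote]) x = φ (pat a) * h a x := by
      rw [ae_all_iff]
      intro a
      filter_upwards [condExp_smul (φ (pat a)) ((E a).indicator (fun _ => (1 : ℝ))) remote
        (μ := κ), h3 a] with x h5 h6
      rw [h5, Pi.smul_apply, h6, smul_eq_mul]
    filter_upwards [h4] with x h4
    rw [Finset.sum_apply]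
    exact Finset.sum_congr rfl fun a _ => h4 a

theorem pf_GEN (hA : T_APX) : T_GEN := by
  intro κ _ hT hI g C hg hC q
  have hgq : Measurable[past q] g := hg.mono (remote_le_past q) le_rfl
  have hgm : Measurable g := hg.mono remote_le le_rfl
  have hgi : Integrable g κ :=
    Integrable.of_bound hgm.aestronglyMeasurable C (ae_of_all _ fun x => by
      rw [Real.norm_eq_abs]
      exact hC x)
  have h1 : ∀ j : ℕ, ∃ h : X → ℝ, Measurable[bias κ q] h ∧ Integrable h κ ∧
      ∫ x, |h x - g x| ∂κ ≤ 1 / ((j : ℝ) + 1) := by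
    intro j
    set e : ℝ := 1 / ((j : ℝ) + 1) with he
    have he0 : 0 < e := by positivity
    obtain ⟨φ, H, hφ, hφm, hL, hle⟩ := hA κ q g C hgq hC (e ^ 2) (by positivity)
    obtain ⟨h, h2, h3⟩ := local_fun κ hT hI q φ H hφm hL
    have hφmm : Measurable φ := hφm.mono (past_le q) le_rfl
    obtain ⟨D, hD⟩ : ∃ D : ℝ, ∀ x, |φ x| ≤ D := by
      obtain ⟨D, hD⟩ := (isCompact_range hφ).isBounded.exists_norm_le
      exact ⟨D, fun x => hD _ ⟨x, rfl⟩⟩
    have hφi : Integrable φ κ :=
      Integrable.of_bound hφmm.aestronglyMeasurable D (ae_of_all _ fun x => by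
        rw [Real.norm_eq_abs]
        exact hD x)
    have hhi : Integrable h κ := integrable_condExp.congr h3
    refine ⟨h, h2, hhi, ?_⟩
    have h4 : κ[g | remote] = g := condExp_of_stronglyMeasurable remote_le
      hg.stronglyMeasurable hgi
    have h5 : ∫ x, |h x - g x| ∂κ = ∫ x, |(κ[φ - g | remote]) x| ∂κ := by
      refine integral_congr_ae ?_
      filter_upwards [h3, condExp_sub hφi hgi remote] with x h6 h7
      rw [h7, Pi.sub_apply, h6, h4]
    rw [h5]
    refine (integral_abs_condExp_le (φ - g)).trans ?_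
    have h6 : ∀ x, |(φ - g) x| ≤ (e + (g x - φ x) ^ 2 / e) / 2 := by
      intro x
      have h7 : |(φ - g) x| = |g x - φ x| := by rw [Pi.sub_apply, abs_sub_comm]
      rw [h7]
      have h8 : 0 ≤ (|g x - φ x| - e) ^ 2 := sq_nonneg _
      have h9 : (|g x - φ x| - e) ^ 2 = (g x - φ x) ^ 2 - 2 * e * |g x - φ x| + e ^ 2 := by
        rw [sub_sq, sq_abs]
        ring
      have h10 : (g x - φ x) ^ 2 / e * e = (g x - φ x) ^ 2 := by field_simp
      nlinarith
    have hsq : Integrable (fun x => (g x - φ x) ^ 2) κ := by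
      refine Integrable.of_bound ((hgm.sub hφmm).pow_const 2).aestronglyMeasurable ((C + D) ^ 2)
        (ae_of_all _ fun x => ?_)
      rw [Real.norm_eq_abs, abs_pow]
      have h7 : |g x - φ x| ≤ C + D := (abs_sub _ _).trans (add_le_add (hC x) (hD x))
      exact pow_le_pow_left₀ (abs_nonneg _) h7 2
    calc ∫ x, |(φ - g) x| ∂κ ≤ ∫ x, (e + (g x - φ x) ^ 2 / e) / 2 ∂κ :=
          integral_mono (hφi.sub hgi).abs
            ((((integrable_const _).add (hsq.div_const _))).div_const _) h6
      _ = (e + (∫ x, (g x - φ x) ^ 2 ∂κ) / e) / 2 := by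
          rw [integral_div, integral_add (integrable_const _) (hsq.div_const _), integral_const,
            integral_div]
          simp
      _ ≤ e := by
          have h7 : (∫ x, (g x - φ x) ^ 2 ∂κ) / e ≤ e := by
            rw [div_le_iff₀ he0]
            nlinarith
          linarith
  choose h h2 h3 h4 using h1
  have h5 : Tendsto (fun j => eLpNorm (h j - g) 1 κ) atTop (𝓝 0) := by
    have h6 : ∀ j, eLpNorm (h j - g) 1 κ = ENNReal.ofReal (∫ x, |h j x - g x| ∂κ) := by
      intro j
      rw [eLpNorm_one_eq_lintegral_enorm, ← ofReal_integral_norm_eq_lintegral_enorm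
        ((h3 j).sub hgi)]
      rfl
    simp only [h6]
    have h7 : Tendsto (fun j : ℕ => ∫ x, |h j x - g x| ∂κ) atTop (𝓝 0) :=
      squeeze_zero (fun j => integral_nonneg fun x => abs_nonneg _) h4
        tendsto_one_div_add_atTop_nhds_zero_nat
    have h8 := (ENNReal.continuous_ofReal.tendsto 0).comp h7
    rw [ENNReal.ofReal_zero] at h8
    exact h8
  have h6 := tendstoInMeasure_of_tendsto_eLpNorm one_ne_zero
    (fun j => ((h2 j).mono (bias_le_remote κ q |>.trans remote_le) le_rfl).aestronglyMeasurable)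
    hgm.aestronglyMeasurable h5
  obtain ⟨ns, -, h7⟩ := h6.exists_seq_tendsto_ae
  refine ⟨fun x => limsup (fun i => h (ns i) x) atTop, ?_, ?_⟩
  · exact Measurable.limsup fun i => h2 (ns i)
  · filter_upwards [h7] with x h8
    exact h8.limsup_eq.symm

/-- The same for sets. -/
theorem gen_sets (hA : T_APX) (κ : Measure X) [IsProbabilityMeasure κ] (hT : Trit κ)
    (hI : iCondIndepFun remote remote_le (fun (n : ℤ) (x : X) => x n) κ) (q : ℤ) (A : Set X)
    (hAm : MeasurableSet[remote] A) :
    ∃ B : Set X, MeasurableSet[bias κ q] B ∧ A =ᵐ[κ] B := by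
  obtain ⟨h, h1, h2⟩ := pf_GEN hA κ hT hI (A.indicator fun _ => 1) 1
    (Measurable.indicator measurable_const hAm) (fun x => by
      by_cases hx : x ∈ A
      · rw [Set.indicator_of_mem hx, abs_one]
      · rw [Set.indicator_of_notMem hx, abs_zero]
        exact zero_le_one) q
  refine ⟨{x | 1 / 2 < h x}, measurableSet_lt measurable_const h1, ?_⟩
  filter_upwards [h2] with x hx
  apply propext
  change x ∈ A ↔ 1 / 2 < h x
  rw [← hx]
  by_cases h3 : x ∈ A
  · rw [Set.indicator_of_mem h3]
    exact ⟨fun _ => by norm_num, fun _ => h3⟩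
  · rw [Set.indicator_of_notMem h3]
    exact ⟨fun h4 => absurd h4 h3, fun h4 => absurd h4 (by norm_num)⟩

end Pool.Agent.H95.RP
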